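import Pool.Agent.Helper99.EXC.GoalsE

/-! Packet EXC HGL (helper39). -/

set_option autoImplicit false

open Finset MeasureTheory ProbabilityTheory Filter
open scoped ENNReal

namespace Pool.Agent.Helper39.EXC

open Pool.Agent.Helper99.ERW Pool.Agent.Helper99.EXC

lemma hp_bounds {p : Site 2 → ℕ → ℝ} (hp0 : ∀ z i, 0 ≤ p z i) (hp1 : ∀ z i, p z i ≤ 1) (N : ℕ) :
    ∀ s : St, 0 ≤ hp p N s ∧ hp p N s ≤ 1 := by
  induction N with
  | zero =>
    intro s
    unfold hp
    split_ifs <;> norm_num
  | succ N ih =>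
    intro s
    unfold hp
    split_ifs
    · norm_num
    · constructor
      · have := stp_mono hp0 hp1 (f := fun _ => 0) (g := hp p N) (s := s) fun e => (ih _).1
        rwa [stp_const] at this
      · have := stp_mono hp0 hp1 (f := hp p N) (g := fun _ => 1) (s := s) fun e => (ih _).2
        rwa [stp_const] at this

lemma hp_mono_succ {p : Site 2 → ℕ → ℝ} (hp0 : ∀ z i, 0 ≤ p z i) (hp1 : ∀ z i, p z i ≤ 1) (N : ℕ) :
    ∀ s : St, hp p N s ≤ hp p (N + 1) s := by
  induction N with
  | zero =>
    intro s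
    by_cases hs : s.1 = 0
    · simp only [hp, if_pos hs, le_refl]
    · have h1 : hp p 0 s = 0 := by simp only [hp, if_neg hs]
      rw [h1]
      exact (hp_bounds hp0 hp1 _ s).1
  | succ N ih =>
    intro s
    by_cases hs : s.1 = 0
    · simp only [hp, if_pos hs, le_refl]
    · have h1 : ∀ M, hp p (M + 1) s = stp p (hp p M) s := fun M => by simp only [hp, if_neg hs]
      rw [h1, h1]
      exact stp_mono hp0 hp1 fun e => ih _

lemma hp_monotone {p : Site 2 → ℕ → ℝ} (hp0 : ∀ z i, 0 ≤ p z i) (hp1 : ∀ z i, p z i ≤ 1) (s : St) :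
    Monotone (fun N => hp p N s) := monotone_nat_of_le_succ fun N => hp_mono_succ hp0 hp1 N s

lemma pw_bounds {ω : Env 2} (hc : IsCookieEnv ω) (hb : IsBalanced ω) :
    (∀ z i, 0 ≤ pw ω z i) ∧ ∀ z i, pw ω z i ≤ 1 := by
  refine ⟨fun z i => ?_, fun z i => ?_⟩
  · unfold pw
    have := (hc z i).1 (0, true)
    linarith
  · unfold pw
    have h1 := (hc z i).2
    have h0 := (hc z i).1
    rw [Fintype.sum_prod_type, Fin.sum_univ_two, Fintype.sum_bool, Fintype.sum_bool] at h1
    have := hb z 0 i
    have h2 := h0 (1, true)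
    have h3 := h0 (1, false)
    linarith

lemma shift_cookie {ω : Env 2} (y : Site 2) (hc : IsCookieEnv ω) : IsCookieEnv (shift y ω) :=
  fun z i => hc (z + y) i

lemma shift_balanced {ω : Env 2} (y : Site 2) (hb : IsBalanced ω) : IsBalanced (shift y ω) :=
  fun z l i => hb (z + y) l i

lemma stt_finite {Ω : Type} (X : ℕ → Ω → Site 2) (y : Site 2) (n : ℕ) (w : Ω) :
    {z | (stt X y n w).2 z ≠ 0}.Finite := by
  refine ((Finset.range n).finite_toSet.image (fun j => X j w - y)).subset ?_
  intro z hz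
  have hz' : visits (fun j => X j w) n (z + y) ≠ 0 := hz
  unfold visits at hz'
  rw [Finset.card_ne_zero] at hz'
  obtain ⟨r, hr⟩ := hz'
  rw [Finset.mem_filter] at hr
  refine ⟨r, hr.1, ?_⟩
  have h2 : X r w = z + y := hr.2
  show X r w - y = z
  rw [h2]
  abel

theorem HGL (hHPL : HPL_stmt) : HGL_stmt := by
  intro Ω mΩ P μ _ env X h hcook hbal y G c0 hc0 hc1 hG n E hE hEG
  have hEm : MeasurableSet E := h.hist_le n _ hE
  have hcook' : ∀ᵐ w ∂μ, IsCookieEnv (env w) := by
    have := h.law_env ▸ hcook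
    exact ae_of_ae_map h.measurable_env.aemeasurable this
  have hbal' : ∀ᵐ w ∂μ, IsBalanced (env w) := by
    have := h.law_env ▸ hbal
    exact ae_of_ae_map h.measurable_env.aemeasurable this
  have hpm : ∀ N, Measurable[hist env X n] (fun w => hp (pw (shift y (env w))) N (stt X y n w)) :=
    fun N => (hHPL Ω mΩ P μ env X h hcook hbal y N n).1
  have hbd : ∀ᵐ w ∂μ, (∀ z i, 0 ≤ pw (shift y (env w)) z i) ∧ ∀ z i, pw (shift y (env w)) z i ≤ 1 := by
    filter_upwards [hcook', hbal'] with w h1 h2
    exact pw_bounds (shift_cookie y h1) (shift_balanced y h2)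
  -- the increasing sets
  let A : ℕ → Set Ω := fun N => E ∩ {w | c0 ≤ hp (pw (shift y (env w))) N (stt X y n w)}
  have hAm : ∀ N, MeasurableSet[hist env X n] (A N) := fun N =>
    hE.inter ((hpm N) measurableSet_Ici)
  let B : ℕ → Set Ω := fun N => ⋃ M ∈ Finset.range (N + 1), A M
  have hBm : ∀ N, MeasurableSet (B N) := fun N =>
    Finset.measurableSet_biUnion _ fun M _ => h.hist_le n _ (hAm M)
  have hBA : ∀ N, B N =ᵐ[μ] A N := by
    intro N
    filter_upwards [hbd] with w hw
    apply propext
    show w ∈ B N ↔ w ∈ A N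
    constructor
    · intro hwB
      simp only [B, Set.mem_iUnion, Finset.mem_range] at hwB
      obtain ⟨M, hM, hwM⟩ := hwB
      exact ⟨hwM.1, le_trans hwM.2 (hp_monotone hw.1 hw.2 _ (Nat.lt_succ_iff.1 hM))⟩
    · intro hwA
      simp only [B, Set.mem_iUnion, Finset.mem_range]
      exact ⟨N, Nat.lt_succ_self N, hwA⟩
  have hBmono : Monotone B := by
    intro N N' hN
    intro w hw
    simp only [B, Set.mem_iUnion, Finset.mem_range] at hw ⊢
    obtain ⟨M, hM, hwM⟩ := hw
    exact ⟨M, by omega, hwM⟩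
  have hBU : ⋃ N, B N = E := by
    apply Set.Subset.antisymm
    · intro w hw
      simp only [B, Set.mem_iUnion] at hw
      obtain ⟨_, M, _, hwM⟩ := hw
      exact hwM.1
    · intro w hw
      obtain ⟨N, hN⟩ := hG _ (hEG w hw) (stt X y n w) (stt_finite X y n w)
      simp only [B, Set.mem_iUnion, Finset.mem_range]
      exact ⟨N, N, Nat.lt_succ_self N, hw, hN⟩
  have hhit : MeasurableSet (hitSet X 0 y n) := by
    have : hitSet X 0 y n = ⋃ i ∈ {i | n ≤ i}, {w | X i w - y ∈ box 2 0} := by
      ext w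
      simp [hitSet]
    rw [this]
    refine MeasurableSet.biUnion (Set.to_countable _) fun i _ => ?_
    exact ((h.measurable_walk i).sub_const y) (Finset.measurableSet _)
  have hkey : ∀ N, c0 * μ.real (A N) ≤ μ.real (E ∩ hitSet X 0 y n) := by
    intro N
    have h1 := (hHPL Ω mΩ P μ env X h hcook hbal y N n).2 (A N) (hAm N)
    have h2 : c0 * μ.real (A N) ≤
        ∫ w in A N, hp (pw (shift y (env w))) N (stt X y n w) ∂μ := by
      have hint : Integrable (fun w => hp (pw (shift y (env w))) N (stt X y n w)) μ := by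
        refine Integrable.of_bound ((hpm N).mono (h.hist_le n) le_rfl).aestronglyMeasurable 1 ?_
        filter_upwards [hbd] with w hw
        have := hp_bounds hw.1 hw.2 N (stt X y n w)
        rw [Real.norm_eq_abs, abs_of_nonneg this.1]
        exact this.2
      have h3 := setIntegral_mono_on (μ := μ) (f := fun _ => c0) (integrable_const c0).integrableOn
        hint.integrableOn (h.hist_le n _ (hAm N)) (fun w hw => hw.2)
      rw [setIntegral_const, smul_eq_mul, mul_comm] at h3
      exact h3
    refine (h2.trans h1).trans (measureReal_mono ?_)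
    rintro w ⟨hw1, i, hi1, hi2, hi3⟩
    refine ⟨hw1.1, i, hi1, ?_⟩
    rw [hi3, sub_self, mem_box]
    intro l
    simp
  have hlim : Tendsto (fun N => μ.real (B N)) atTop (nhds (μ.real E)) := by
    have h1 := tendsto_measure_iUnion_atTop (μ := μ) hBmono
    rw [hBU] at h1
    exact (ENNReal.tendsto_toReal (measure_ne_top μ E)).comp h1
  have hfin : c0 * μ.real E ≤ μ.real (E ∩ hitSet X 0 y n) := by
    refine le_of_tendsto (hlim.const_mul c0) (Eventually.of_forall fun N => ?_)
    have : μ.real (B N) = μ.real (A N) := measureReal_congr (hBA N)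
    simp only [this]
    exact hkey N
  have hsplit := measureReal_inter_add_sdiff (μ := μ) (s := E) hhit
  linarith

end Pool.Agent.Helper39.EXC
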