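import Pool.Agent.Helper99.EXC.GoalsD

/-! Packet EXC LTM (helper39): local time identities. -/

set_option autoImplicit false

open Finset

namespace Pool.Agent.Helper39.EXC

open Pool.Agent.Helper99.ERW Pool.Agent.Helper99.EXC

lemma stp_local (p : Site 2 → ℕ → ℝ) (Λ : Finset (Site 2)) (G : Site 2 → ℕ → ℝ) (s : St)
    (hs : s.1 ∈ Λ) :
    stp p (fun s => ∑ z ∈ Λ, G z (s.2 z)) s =
      ∑ z ∈ Λ, G z (s.2 z) + (G s.1 (s.2 s.1 + 1) - G s.1 (s.2 s.1)) := by
  apply stp_of_eq
  intro e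
  show ∑ z ∈ Λ, G z (inc s z) = _
  rw [← Finset.add_sum_erase Λ (fun z => G z (inc s z)) hs,
    ← Finset.add_sum_erase Λ (fun z => G z (s.2 z)) hs]
  have h1 : ∑ z ∈ Λ.erase s.1, G z (inc s z) = ∑ z ∈ Λ.erase s.1, G z (s.2 z) := by
    refine Finset.sum_congr rfl fun z hz => ?_
    rw [inc_of_ne s (Finset.ne_of_mem_erase hz)]
  rw [h1]
  simp only [inc_self]
  ring

theorem LTM : LTM_stmt := by
  intro a p V Tl Si hC Λ N s0
  refine ⟨?_, ?_, ?_⟩
  · intro w
    refine tele p Λ N (F := fun s => ∑ z ∈ Λ, w z * Sm a p z (s.2 z))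
      (g := fun s => w s.1 * dS a p s) ?_ s0
    intro s hs
    rw [stp_local p Λ (fun z j => w z * Sm a p z j) s hs]
    congr 1
    rw [Sm_succ]
    unfold dS
    ring
  · intro w
    have h1 := tele p Λ N (F := fun s => ∑ z ∈ Λ, |w z| * Vm a p z (s.2 z))
      (g := fun s => |w s.1| * |dS a p s|) (by
        intro s hs
        rw [stp_local p Λ (fun z j => |w z| * Vm a p z j) s hs]
        congr 1
        rw [Vm_succ]
        unfold dS
        ring) s0
    have h2 : Ex p Λ N (fun s => ∑ z ∈ Λ, |w z| * Vm a p z (s.2 z)) s0 ≤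
        ∑ z ∈ Λ, |w z| * V z := by
      refine Ex_le_const hC.p0 hC.p1 Λ N (fun s => ?_) s0
      exact Finset.sum_le_sum fun z _ => mul_le_mul_of_nonneg_left (hC.tv z _) (abs_nonneg _)
    have h3 : 0 ≤ ∑ z ∈ Λ, |w z| * Vm a p z (s0.2 z) := by
      refine Finset.sum_nonneg fun z _ => mul_nonneg (abs_nonneg _) ?_
      exact Finset.sum_nonneg fun i _ => abs_nonneg _
    linarith
  · intro u J hu
    have h1 := tele p Λ N (F := fun s => ∑ z ∈ Λ, u z * ((min (s.2 z) J : ℕ) : ℝ))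
      (g := fun s => u s.1 * (if s.2 s.1 < J then 1 else 0)) (by
        intro s hs
        rw [stp_local p Λ (fun z j => u z * ((min j J : ℕ) : ℝ)) s hs]
        congr 1
        split_ifs with h
        · rw [min_eq_left (Nat.succ_le_of_lt h), min_eq_left h.le]
          push_cast
          ring
        · have h' : J ≤ s.2 s.1 := not_lt.1 h
          rw [min_eq_right h', min_eq_right (h'.trans (Nat.le_succ _))]
          ring) s0
    have h2 : Ex p Λ N (fun s => ∑ z ∈ Λ, u z * ((min (s.2 z) J : ℕ) : ℝ)) s0 ≤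
        J * ∑ z ∈ Λ, u z := by
      refine Ex_le_const hC.p0 hC.p1 Λ N (fun s => ?_) s0
      rw [Finset.mul_sum]
      refine Finset.sum_le_sum fun z _ => ?_
      rw [mul_comm (J : ℝ)]
      exact mul_le_mul_of_nonneg_left (by exact_mod_cast min_le_right _ _) (hu z)
    have h3 : 0 ≤ ∑ z ∈ Λ, u z * ((min (s0.2 z) J : ℕ) : ℝ) := by
      exact Finset.sum_nonneg fun z _ => mul_nonneg (hu z) (Nat.cast_nonneg _)
    linarith

end Pool.Agent.Helper39.EXC
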